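import Pool.Agent.N37.LF.Tr

/-!
# Fields of definition of `ν`-central polynomials
-/

set_option autoImplicit false

open FirstOrder FirstOrder.Language FirstOrder.Ring FirstOrder.Field

namespace Pool.Agent.N37.LF

universe u v w

theorem good_of_char0 (n ν m d : ℕ) (K : Type v) [Field K] [CharZero K] (h : Has K n ν m d) :
    {p : ℕ | p.Prime ∧ ¬ Good.{u} n ν m d p}.Finite := by
  have h1 : Has (AlgebraicClosure K) n ν m d := has_ext n ν m d h
  have : CharZero (AlgebraicClosure K) := charZero_of_injective_algebraMap
    (algebraMap K (AlgebraicClosure K)).injective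
  exact (lef_fin n ν m d (AlgebraicClosure K)).1 h1

/-- a polynomial with coefficients in `F` which is `ν`-central over one infinite algebraic extension
of `F` is so over all infinite extensions of `F` -/
theorem descend {F : Type u} {A : Type v} {L : Type w} [Field F] [Field A] [Field L] [Algebra F A]
    [Algebra.IsAlgebraic F A] [Infinite A] [Algebra F L] [Infinite L] {n m d : ℕ} (ν : ℕ)
    (c : Wd m d → F) (h : IsNuCentral n ν (pol fun w => algebraMap F A (c w))) :
    IsNuCentral n ν (pol fun w => algebraMap F L (c w)) := by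
  have φ : A →ₐ[F] AlgebraicClosure L := IsAlgClosed.lift
  let _ : Algebra A (AlgebraicClosure L) := φ.toRingHom.toAlgebra
  have h4 := (nu_iff (L := AlgebraicClosure L) (n := n) ν (fun w => algebraMap F A (c w))).1 h
  have h5 : (fun w => algebraMap A (AlgebraicClosure L) (algebraMap F A (c w))) =
      fun w => algebraMap L (AlgebraicClosure L) (algebraMap F L (c w)) := by
    funext w
    have h7 : algebraMap A (AlgebraicClosure L) (algebraMap F A (c w)) =
      φ (algebraMap F A (c w)) := rfl
    rw [h7, φ.commutes, ← IsScalarTower.algebraMap_apply]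
  rw [h5] at h4
  exact (nu_iff (L := AlgebraicClosure L) (n := n) ν (fun w => algebraMap F L (c w))).2 h4

/-- field of definition -/
theorem defn_field {P : Type u} {A : Type v} [Field P] [Field A] [Algebra P A]
    [Algebra.IsAlgebraic P A] [Infinite A] (n ν m d : ℕ) (h : Has A n ν m d) :
    ∃ F : IntermediateField P A, FiniteDimensional P F ∧
      ∀ (L : Type w) [Field L] [Infinite L] [Algebra F L], Has L n ν m d := by
  obtain ⟨f, hf, hnu⟩ := h
  obtain ⟨c, rfl⟩ := (mem_span_iff f).1 hf
  have : Finite (Set.range c) := (Set.finite_range c)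
  refine ⟨IntermediateField.adjoin P (Set.range c),
    IntermediateField.finiteDimensional_adjoin fun x _ => Algebra.IsIntegral.isIntegral x,
    fun L _ _ _ => ?_⟩
  have h1 := descend (F := IntermediateField.adjoin P (Set.range c)) (A := A) (L := L) (n := n) ν
    (fun w => ⟨c w, IntermediateField.subset_adjoin P _ ⟨w, rfl⟩⟩) hnu
  exact ⟨_, (mem_span_iff _).2 ⟨_, rfl⟩, h1⟩

theorem def_char0 (n ν m d : ℕ) (K : Type v) [Field K] [CharZero K] (h : Has K n ν m d) :
    ∃ (F : Type) (_ : Field F) (_ : NumberField F), ∀ (L : Type u) [Field L] [Algebra F L],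
      Has L n ν m d := by
  have h1 : Has (AlgebraicClosure K) n ν m d := has_ext n ν m d h
  have : CharZero (AlgebraicClosure K) := charZero_of_injective_algebraMap
    (algebraMap K (AlgebraicClosure K)).injective
  have h2 : Has (AlgebraicClosure ℚ) n ν m d :=
    (has_char n ν m d 0 (AlgebraicClosure K) (AlgebraicClosure ℚ)).1 h1
  have halg : Algebra.IsAlgebraic ℚ (AlgebraicClosure ℚ) := by
    convert AlgebraicClosure.isAlgebraic ℚ
    · rfl
    · exact Subsingleton.elim _ _
  obtain ⟨F, hF, h3⟩ := defn_field.{0, 0, u} (P := ℚ) n ν m d h2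
  have hN : NumberField F :=
    { to_finiteDimensional := by convert hF }
  refine ⟨F, inferInstance, hN, fun L _ _ => ?_⟩
  have : CharZero L := charZero_of_injective_algebraMap (algebraMap F L).injective
  exact h3 L

theorem def_charp (n ν m d p : ℕ) [Fact p.Prime] (K : Type v) [Field K] [Infinite K] [CharP K p]
    (h : Has K n ν m d) :
    ∃ (F : Type) (_ : Field F), Finite F ∧ CharP F p ∧
      ∀ (L : Type u) [Field L] [Infinite L] [Algebra F L], Has L n ν m d := by
  have h1 : Has (AlgebraicClosure K) n ν m d := has_ext n ν m d h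
  have : CharP (AlgebraicClosure K) p := charP_of_injective_algebraMap
    (algebraMap K (AlgebraicClosure K)).injective p
  have h2 : Has (AlgebraicClosure (ZMod p)) n ν m d :=
    (has_char n ν m d p (AlgebraicClosure K) (AlgebraicClosure (ZMod p))).1 h1
  have hinf : Infinite (AlgebraicClosure (ZMod p)) := IsAlgClosed.instInfinite
  obtain ⟨F, hF, h3⟩ := defn_field.{0, 0, u} (P := ZMod p) n ν m d h2
  have hfin : Finite F := Module.finite_of_finite (ZMod p)
  exact ⟨F, inferInstance, hfin,
    charP_of_injective_algebraMap (algebraMap (ZMod p) F).injective p, h3⟩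

end Pool.Agent.N37.LF
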