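import Mathlib

/-!
# Existence of `ν`-central polynomials of bounded degree as a first-order sentence
-/

set_option autoImplicit false

open FirstOrder FirstOrder.Language FirstOrder.Ring FirstOrder.Field

namespace Pool.Agent.N37.LF

/-- Every value of `f` on `n × n` matrices over `K` is a scalar matrix. -/
def ScalarValued {K : Type*} [Field K] {σ : Type*} (n : ℕ) (f : FreeAlgebra K σ) : Prop :=
  ∀ X : σ → Matrix (Fin n) (Fin n) K, ∃ c : K, FreeAlgebra.lift K X f = Matrix.scalar (Fin n) c

/-- `f` is central for `M_n(K)`: all values are scalar and `f` is not identically zero. -/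
def IsCentral {K : Type*} [Field K] {σ : Type*} (n : ℕ) (f : FreeAlgebra K σ) : Prop :=
  ScalarValued n f ∧ ∃ X : σ → Matrix (Fin n) (Fin n) K, FreeAlgebra.lift K X f ≠ 0

/-- `f` is `ν`-central for `M_n(K)`: `ν` is the least positive integer with `f ^ ν` central. -/
def IsNuCentral {K : Type*} [Field K] {σ : Type*} (n ν : ℕ) (f : FreeAlgebra K σ) : Prop :=
  0 < ν ∧ IsCentral n (f ^ ν) ∧ ∀ μ : ℕ, 0 < μ → IsCentral n (f ^ μ) → ν ≤ μ

/-- There is a `ν`-central polynomial for `M_n(K)` in `m` variables of degree at most `d`. -/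
def Has (K : Type*) [Field K] (n ν m d : ℕ) : Prop :=
  ∃ f : FreeAlgebra K (Fin m), f ∈ Submodule.span K {w : FreeAlgebra K (Fin m) |
    ∃ l : List (Fin m), l.length ≤ d ∧ w = (l.map (FreeAlgebra.ι K)).prod} ∧ IsNuCentral n ν f

/-- words of length at most `d` -/
abbrev Wd (m d : ℕ) : Type := (k : Fin (d + 1)) × (Fin k → Fin m)

/-- entries of generic matrices -/
abbrev Vr (n m : ℕ) : Type := Fin m × Fin n × Fin n

/-- all variables -/
abbrev All (n m d : ℕ) : Type := (Empty ⊕ Wd m d) ⊕ Vr n m

/-- the generic matrices -/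
noncomputable def gen (n m d : ℕ) (i : Fin m) : Matrix (Fin n) (Fin n) (FreeCommRing (All n m d)) :=
  Matrix.of fun a b => FreeCommRing.of (Sum.inr (i, a, b))

/-- the value of the generic polynomial at the generic matrices -/
noncomputable def FF (n m d : ℕ) : Matrix (Fin n) (Fin n) (FreeCommRing (All n m d)) :=
  ∑ w : Wd m d, (FreeCommRing.of (Sum.inl (Sum.inr w)) : FreeCommRing (All n m d)) •
    (List.ofFn fun j => gen n m d (w.2 j)).prod

/-- monomials -/
noncomputable def mon (K : Type*) [Field K] {m d : ℕ} (w : Wd m d) : FreeAlgebra K (Fin m) :=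
  (List.ofFn fun j => FreeAlgebra.ι K (w.2 j)).prod

/-- the polynomial with given coefficients -/
noncomputable def pol {K : Type*} [Field K] {m d : ℕ} (c : Wd m d → K) : FreeAlgebra K (Fin m) :=
  ∑ w : Wd m d, c w • mon K w

theorem mem_span_iff {K : Type*} [Field K] {m d : ℕ} (f : FreeAlgebra K (Fin m)) :
    f ∈ Submodule.span K {w : FreeAlgebra K (Fin m) |
      ∃ l : List (Fin m), l.length ≤ d ∧ w = (l.map (FreeAlgebra.ι K)).prod} ↔
    ∃ c : Wd m d → K, pol c = f := by
  have h : {w : FreeAlgebra K (Fin m) | ∃ l : List (Fin m), l.length ≤ d ∧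
      w = (l.map (FreeAlgebra.ι K)).prod} = Set.range (mon K : Wd m d → FreeAlgebra K (Fin m)) := by
    ext w
    constructor
    · rintro ⟨l, hl, rfl⟩
      refine ⟨⟨⟨l.length, by omega⟩, fun j => l.get j⟩, ?_⟩
      rw [mon]
      congr 1
      have : (List.ofFn fun j : Fin l.length => FreeAlgebra.ι K (l.get j)) =
          l.map (FreeAlgebra.ι K) := by
        conv_rhs => rw [← List.ofFn_get l]
        rw [List.map_ofFn]
        rfl
      exact this
    · rintro ⟨w, rfl⟩
      refine ⟨List.ofFn w.2, by rw [List.length_ofFn]; omega, ?_⟩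
      rw [mon, List.map_ofFn]
      rfl
  rw [h, Submodule.mem_span_range_iff_exists_fun]
  rfl

theorem mapMatrix_smul' {R S : Type*} [CommRing R] [CommRing S] {n : ℕ} (φ : R →+* S) (r : R)
    (M : Matrix (Fin n) (Fin n) R) : φ.mapMatrix (r • M) = φ r • φ.mapMatrix M := by
  ext i j
  simp

/-- specialisation of the generic value -/
theorem spec {K : Type*} [Field K] (n m d : ℕ) (v : All n m d → K) :
    (FreeCommRing.lift v).mapMatrix (FF n m d) =
      FreeAlgebra.lift K (fun i : Fin m => (Matrix.of fun a b : Fin n => v (Sum.inr (i, a, b))))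
        (pol fun w => v (Sum.inl (Sum.inr w))) := by
  rw [FF, pol, map_sum, map_sum]
  refine Finset.sum_congr rfl fun w _ => ?_
  rw [mapMatrix_smul', FreeCommRing.lift_of, map_smul, mon, map_list_prod, map_list_prod,
    List.map_ofFn, List.map_ofFn]
  congr 3
  funext j
  ext a b
  simp [gen, FreeAlgebra.lift_ι_apply]

/-- the equations saying that a matrix is scalar -/
def sE {R : Type*} [CommRing R] {n : ℕ} (A : Matrix (Fin n) (Fin n) R) :
    Fin n × Fin n × Bool → R
  | (i, j, true) => A i i - A j j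
  | (i, j, false) => if i = j then 0 else A i j

theorem sE_iff {R : Type*} [CommRing R] {n : ℕ} (A : Matrix (Fin n) (Fin n) R) :
    (∀ x, sE A x = 0) ↔ ∃ c : R, A = Matrix.scalar (Fin n) c := by
  constructor
  · intro h
    rcases Nat.eq_zero_or_pos n with rfl | hn
    · exact ⟨0, Subsingleton.elim _ _⟩
    · refine ⟨A ⟨0, hn⟩ ⟨0, hn⟩, ?_⟩
      ext i j
      rw [Matrix.scalar_apply, Matrix.diagonal_apply]
      by_cases hij : i = j
      · subst hij
        rw [if_pos rfl]
        have := h (i, ⟨0, hn⟩, true)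
        exact sub_eq_zero.1 this
      · rw [if_neg hij]
        have := h (i, j, false)
        simpa [sE, hij] using this
  · rintro ⟨c, rfl⟩ ⟨i, j, b⟩
    cases b
    · by_cases hij : i = j
      · simp [sE, hij]
      · simp [sE, hij]
    · simp [sE]

theorem sE_map {R S : Type*} [CommRing R] [CommRing S] {n : ℕ} (φ : R →+* S)
    (A : Matrix (Fin n) (Fin n) R) (x : Fin n × Fin n × Bool) :
    φ (sE A x) = sE (φ.mapMatrix A) x := by
  obtain ⟨i, j, b⟩ := x
  cases b
  · by_cases hij : i = j
    · simp [sE, hij]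
    · simp [sE, hij]
  · simp [sE]

/-- the atomic formula `P = 0` -/
noncomputable def eq0 {α : Type} (P : FreeCommRing α) : Language.ring.Formula α :=
  (termOfFreeCommRing P).equal (termOfFreeCommRing 0)

theorem realize_eq0 {α : Type} (P : FreeCommRing α) {K : Type*} [Field K] [CompatibleRing K]
    (v : α → K) : (eq0 P).Realize v ↔ FreeCommRing.lift v P = 0 := by
  rw [eq0, Formula.realize_equal, realize_termOfFreeCommRing, realize_termOfFreeCommRing, map_zero]

/-- `f ^ μ` has scalar values -/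
noncomputable def scF (n m d μ : ℕ) : Language.ring.Formula (Empty ⊕ Wd m d) :=
  Formula.iAlls (Vr n m) (Formula.iInf fun x => eq0 (sE (FF n m d ^ μ) x))

/-- `f ^ μ` is not identically zero -/
noncomputable def nzF (n m d μ : ℕ) : Language.ring.Formula (Empty ⊕ Wd m d) :=
  Formula.iExs (Vr n m) (Formula.iSup fun x : Fin n × Fin n => ∼(eq0 ((FF n m d ^ μ) x.1 x.2)))

/-- the matrices with given entries -/
def mat {K : Type*} {n m : ℕ} (x : Vr n m → K) (i : Fin m) : Matrix (Fin n) (Fin n) K :=
  Matrix.of fun a b => x (i, a, b)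

theorem mat_surj {K : Type*} {n m : ℕ} (X : Fin m → Matrix (Fin n) (Fin n) K) :
    ∃ x : Vr n m → K, mat x = X := ⟨fun t => X t.1 t.2.1 t.2.2, rfl⟩

theorem lift_pow {K : Type*} [Field K] (n m d μ : ℕ) (v : Empty ⊕ Wd m d → K) (x : Vr n m → K) :
    (FreeCommRing.lift (Sum.elim v x)).mapMatrix (FF n m d ^ μ) =
      FreeAlgebra.lift K (mat x) (pol (fun w => v (Sum.inr w)) ^ μ) := by
  rw [map_pow, spec, map_pow]
  rfl

theorem realize_scF (n m d μ : ℕ) {K : Type*} [Field K] [CompatibleRing K]
    (v : Empty ⊕ Wd m d → K) :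
    (scF n m d μ).Realize v ↔ ScalarValued n (pol (fun w => v (Sum.inr w)) ^ μ) := by
  rw [scF, Formula.realize_iAlls]
  have h : ∀ x : Vr n m → K, (Formula.iInf fun y => eq0 (sE (FF n m d ^ μ) y)).Realize
      (Sum.elim v x) ↔ ∃ c : K, FreeAlgebra.lift K (mat x) (pol (fun w => v (Sum.inr w)) ^ μ) =
        Matrix.scalar (Fin n) c := by
    intro x
    rw [Formula.realize_iInf, ← sE_iff]
    refine forall_congr' fun y => ?_
    rw [realize_eq0, sE_map, lift_pow]
  constructor
  · intro h1 X
    obtain ⟨x, rfl⟩ := mat_surj X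
    exact (h x).1 (h1 x)
  · intro h1 x
    exact (h x).2 (h1 _)

theorem realize_nzF (n m d μ : ℕ) {K : Type*} [Field K] [CompatibleRing K]
    (v : Empty ⊕ Wd m d → K) :
    (nzF n m d μ).Realize v ↔ ∃ X : Fin m → Matrix (Fin n) (Fin n) K,
      FreeAlgebra.lift K X (pol (fun w => v (Sum.inr w)) ^ μ) ≠ 0 := by
  rw [nzF, Formula.realize_iExs]
  have h : ∀ x : Vr n m → K, (Formula.iSup fun y : Fin n × Fin n =>
      ∼(eq0 ((FF n m d ^ μ) y.1 y.2))).Realize (Sum.elim v x) ↔
      FreeAlgebra.lift K (mat x) (pol (fun w => v (Sum.inr w)) ^ μ) ≠ 0 := by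
    intro x
    rw [Formula.realize_iSup, ← lift_pow]
    constructor
    · rintro ⟨y, hy⟩ h0
      rw [Formula.realize_not, realize_eq0] at hy
      apply hy
      have := congrFun (congrFun h0 y.1) y.2
      simpa using this
    · intro h1
      by_contra h2
      push Not at h2
      apply h1
      ext a b
      have := h2 (a, b)
      rw [Formula.realize_not, not_not, realize_eq0] at this
      simpa using this
  constructor
  · rintro ⟨x, hx⟩
    exact ⟨_, (h x).1 hx⟩
  · rintro ⟨X, hX⟩
    obtain ⟨x, rfl⟩ := mat_surj X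
    exact ⟨x, (h x).2 hX⟩

/-- `f ^ μ` is central -/
noncomputable def ceF (n m d μ : ℕ) : Language.ring.Formula (Empty ⊕ Wd m d) :=
  scF n m d μ ⊓ nzF n m d μ

theorem realize_ceF (n m d μ : ℕ) {K : Type*} [Field K] [CompatibleRing K]
    (v : Empty ⊕ Wd m d → K) :
    (ceF n m d μ).Realize v ↔ IsCentral n (pol (fun w => v (Sum.inr w)) ^ μ) := by
  rw [ceF, Formula.realize_inf, realize_scF, realize_nzF]
  rfl

/-- there is a `ν`-central polynomial, `ν = μ + 1` -/
noncomputable def snt (n μ m d : ℕ) : Language.ring.Sentence :=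
  Formula.iExs (Wd m d) (ceF n m d (μ + 1) ⊓ Formula.iInf fun k : Fin μ => ∼(ceF n m d (k + 1)))

theorem realize_snt (n μ m d : ℕ) (K : Type*) [Field K] [CompatibleRing K] :
    K ⊨ snt n μ m d ↔ Has K n (μ + 1) m d := by
  rw [Sentence.Realize, snt, Formula.realize_iExs]
  have h : ∀ c : Wd m d → K, (ceF n m d (μ + 1) ⊓ Formula.iInf fun k : Fin μ =>
      ∼(ceF n m d (k + 1))).Realize (Sum.elim (default : Empty → K) c) ↔
      IsNuCentral n (μ + 1) (pol c) := by
    intro c
    rw [Formula.realize_inf, realize_ceF, Formula.realize_iInf]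
    simp only [Formula.realize_not, realize_ceF, Sum.elim_inr]
    constructor
    · rintro ⟨h1, h2⟩
      refine ⟨Nat.succ_pos _, h1, fun k hk hc => ?_⟩
      by_contra h3
      have h4 := h2 ⟨k - 1, by omega⟩
      apply h4
      simp only
      rw [Nat.sub_add_cancel hk]
      exact hc
    · rintro ⟨-, h1, h2⟩
      refine ⟨h1, fun k hc => ?_⟩
      have := h2 (k + 1) (Nat.succ_pos _) hc
      omega
  constructor
  · rintro ⟨c, hc⟩
    exact ⟨pol c, (mem_span_iff _).2 ⟨c, rfl⟩, (h c).1 hc⟩
  · rintro ⟨f, hf, hnu⟩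
    obtain ⟨c, rfl⟩ := (mem_span_iff f).1 hf
    exact ⟨c, (h c).2 hnu⟩

end Pool.Agent.N37.LF
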