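import Pool.Agent.N37.LF.Frm

/-!
# Field extensions and the Lefschetz principle for `ν`-central polynomials
-/

set_option autoImplicit false

open FirstOrder FirstOrder.Language FirstOrder.Ring FirstOrder.Field

namespace Pool.Agent.N37.LF

universe u v

section ext

variable {K : Type u} {L : Type v} [Field K] [Field L] [Algebra K L] {n m d : ℕ}

theorem lift_alg (Q : FreeCommRing (All n m d)) (c : Empty ⊕ Wd m d → K) (x : Vr n m → K) :
    algebraMap K L (FreeCommRing.lift (Sum.elim c x) Q) =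
      FreeCommRing.lift (Sum.elim (fun w => algebraMap K L (c w)) fun t => algebraMap K L (x t))
        Q := by
  have : (algebraMap K L).comp (FreeCommRing.lift (Sum.elim c x)) =
      FreeCommRing.lift (Sum.elim (fun w => algebraMap K L (c w)) fun t => algebraMap K L (x t)) := by
    apply FreeCommRing.hom_ext
    rintro (w | w) <;> simp
  rw [← this]
  rfl

/-- an identity in the entries of the matrices holds over `K` iff it holds over `L` -/
theorem tr0 [Infinite K] (Q : FreeCommRing (All n m d)) (c : Empty ⊕ Wd m d → K) :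
    (∀ x : Vr n m → K, FreeCommRing.lift (Sum.elim c x) Q = 0) ↔
      ∀ y : Vr n m → L, FreeCommRing.lift (Sum.elim (fun w => algebraMap K L (c w)) y) Q = 0 := by
  set P : MvPolynomial (Vr n m) K :=
    FreeCommRing.lift (Sum.elim (fun w => MvPolynomial.C (c w)) MvPolynomial.X) Q with hP
  have h1 : ∀ x : Vr n m → K, MvPolynomial.eval x P = FreeCommRing.lift (Sum.elim c x) Q := by
    intro x
    have : (MvPolynomial.eval x).comp
        (FreeCommRing.lift (Sum.elim (fun w => MvPolynomial.C (c w)) MvPolynomial.X)) =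
        FreeCommRing.lift (Sum.elim c x) := by
      apply FreeCommRing.hom_ext
      rintro (w | w) <;> simp
    rw [← this]
    rfl
  have h2 : ∀ y : Vr n m → L, MvPolynomial.eval₂ (algebraMap K L) y P =
      FreeCommRing.lift (Sum.elim (fun w => algebraMap K L (c w)) y) Q := by
    intro y
    have : (MvPolynomial.eval₂Hom (algebraMap K L) y).comp
        (FreeCommRing.lift (Sum.elim (fun w => MvPolynomial.C (c w)) MvPolynomial.X)) =
        FreeCommRing.lift (Sum.elim (fun w => algebraMap K L (c w)) y) := by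
      apply FreeCommRing.hom_ext
      rintro (w | w) <;> simp
    rw [← this]
    rfl
  constructor
  · intro h y
    have h3 : P = 0 := by
      apply MvPolynomial.funext
      intro x
      rw [h1, h, map_zero]
    rw [← h2, h3, MvPolynomial.eval₂_zero]
  · intro h x
    apply (algebraMap K L).injective
    rw [map_zero, lift_alg]
    exact h _

theorem sc_iff (F : Type*) [Field F] (μ : ℕ) (c : Empty ⊕ Wd m d → F) :
    ScalarValued n (pol (fun w => c (Sum.inr w)) ^ μ) ↔
      ∀ e, ∀ x : Vr n m → F, FreeCommRing.lift (Sum.elim c x) (sE (FF n m d ^ μ) e) = 0 := by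
  constructor
  · intro h e x
    rw [sE_map, lift_pow]
    exact (sE_iff _).2 (h (mat x)) e
  · intro h X
    obtain ⟨x, rfl⟩ := mat_surj X
    rw [← sE_iff]
    intro e
    rw [← lift_pow, ← sE_map]
    exact h e x

theorem nz_iff (F : Type*) [Field F] (μ : ℕ) (c : Empty ⊕ Wd m d → F) :
    (∃ X : Fin m → Matrix (Fin n) (Fin n) F,
      FreeAlgebra.lift F X (pol (fun w => c (Sum.inr w)) ^ μ) ≠ 0) ↔
      ¬ ∀ e : Fin n × Fin n, ∀ x : Vr n m → F,
        FreeCommRing.lift (Sum.elim c x) ((FF n m d ^ μ) e.1 e.2) = 0 := by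
  rw [← not_iff_not, not_not, not_exists]
  simp only [not_not]
  constructor
  · intro h e x
    have h1 := h (mat x)
    rw [← lift_pow] at h1
    have := congrFun (congrFun h1 e.1) e.2
    simpa using this
  · intro h X
    obtain ⟨x, rfl⟩ := mat_surj X
    rw [← lift_pow]
    ext a b
    simpa using h (a, b) x

theorem cen_iff [Infinite K] (μ : ℕ) (c : Wd m d → K) :
    IsCentral n (pol c ^ μ) ↔ IsCentral n (pol (fun w => algebraMap K L (c w)) ^ μ) := by
  have e1 := sc_iff (n := n) K μ (Sum.elim (Empty.elim : Empty → K) c)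
  have e2 := sc_iff (n := n) L μ (fun w => algebraMap K L ((Sum.elim (Empty.elim : Empty → K) c) w))
  have e3 := nz_iff (n := n) K μ (Sum.elim (Empty.elim : Empty → K) c)
  have e4 := nz_iff (n := n) L μ (fun w => algebraMap K L ((Sum.elim (Empty.elim : Empty → K) c) w))
  simp only [Sum.elim_inr] at e1 e2 e3 e4
  unfold IsCentral
  rw [e1, e2, e3, e4]
  refine and_congr (forall_congr' fun e => tr0 _ _) (not_congr (forall_congr' fun e => tr0 _ _))

theorem nu_iff [Infinite K] (ν : ℕ) (c : Wd m d → K) :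
    IsNuCentral n ν (pol c) ↔ IsNuCentral n ν (pol (fun w => algebraMap K L (c w))) := by
  unfold IsNuCentral
  refine and_congr Iff.rfl (and_congr (cen_iff ν c) (forall_congr' fun μ => forall_congr' fun _ => ?_))
  rw [cen_iff (L := L) μ c]

theorem has_ext [Infinite K] (n ν m d : ℕ) (h : Has K n ν m d) : Has L n ν m d := by
  obtain ⟨f, hf, hnu⟩ := h
  obtain ⟨c, rfl⟩ := (mem_span_iff f).1 hf
  exact ⟨_, (mem_span_iff _).2 ⟨_, rfl⟩, (nu_iff ν c).1 hnu⟩

theorem has_alg [Infinite K] [Algebra.IsAlgebraic K L] (n ν m d : ℕ) (h : Has L n ν m d) :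
    ∃ F : IntermediateField K L, FiniteDimensional K F ∧ Has F n ν m d := by
  obtain ⟨f, hf, hnu⟩ := h
  obtain ⟨c, rfl⟩ := (mem_span_iff f).1 hf
  have hfin : (Set.range c).Finite := Set.finite_range c
  have : Finite (Set.range c) := hfin
  refine ⟨IntermediateField.adjoin K (Set.range c),
    IntermediateField.finiteDimensional_adjoin fun x _ => Algebra.IsIntegral.isIntegral x, ?_⟩
  set F := IntermediateField.adjoin K (Set.range c) with hF
  have : Infinite F := Infinite.of_injective (algebraMap K F) (algebraMap K F).injective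
  let c' : Wd m d → F := fun w => ⟨c w, IntermediateField.subset_adjoin K _ ⟨w, rfl⟩⟩
  refine ⟨pol c', (mem_span_iff _).2 ⟨_, rfl⟩, (nu_iff (L := L) ν c').2 ?_⟩
  exact hnu

end ext

theorem has_iff_models {p : ℕ} (hp : p.Prime ∨ p = 0) (n μ m d : ℕ) (K : Type u) [Field K]
    [IsAlgClosed K] [CharP K p] : Has K n (μ + 1) m d ↔ Theory.ACF p ⊨ᵇ snt n μ m d := by
  let _ := compatibleRingOfRing K
  rw [← realize_snt]
  exact (ACF_isComplete hp).realize_sentence_iff (snt n μ m d) K

theorem not_has_zero (K : Type u) [Field K] (n m d : ℕ) : ¬ Has K n 0 m d := by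
  rintro ⟨f, -, h, -⟩
  exact lt_irrefl 0 h

theorem has_char (n ν m d p : ℕ) (K : Type u) (L : Type v) [Field K] [Field L] [IsAlgClosed K]
    [IsAlgClosed L] [CharP K p] [CharP L p] : Has K n ν m d ↔ Has L n ν m d := by
  rcases ν with _ | μ
  · exact iff_of_false (not_has_zero K n m d) (not_has_zero L n m d)
  · have hp : p.Prime ∨ p = 0 := CharP.char_is_prime_or_zero K p
    rw [has_iff_models hp, has_iff_models hp]

theorem ulift_ac (k : Type) [Field k] [IsAlgClosed k] : IsAlgClosed (ULift.{u} k) := by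
  refine IsAlgClosed.of_exists_root _ fun p hp hi => ?_
  have e : ULift.{u} k ≃+* k := ULift.ringEquiv
  have h1 : (p.map (e : ULift.{u} k →+* k)).degree ≠ 0 := by
    rw [Polynomial.degree_map]
    exact (Polynomial.degree_pos_of_irreducible hi).ne'
  obtain ⟨x, hx⟩ := IsAlgClosed.exists_root _ h1
  refine ⟨e.symm x, ?_⟩
  apply e.injective
  have h2 := Polynomial.eval₂_hom (p := p) (e : ULift.{u} k →+* k) (e.symm x)
  have h3 : (e : ULift.{u} k →+* k) (e.symm x) = x := e.apply_symm_apply x
  rw [h3] at h2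
  rw [map_zero]
  refine h2.symm.trans ?_
  rw [← Polynomial.eval_map]
  exact hx

/-- a `ν`-central polynomial exists for all algebraically closed fields of characteristic `p` -/
def Good (n ν m d p : ℕ) : Prop :=
  ∀ (k : Type u) [Field k] [IsAlgClosed k] [CharP k p], Has k n ν m d

theorem good_iff {p : ℕ} (hp : p.Prime ∨ p = 0) (n μ m d : ℕ) :
    Good.{u} n (μ + 1) m d p ↔ Theory.ACF p ⊨ᵇ snt n μ m d := by
  constructor
  · intro h
    rcases hp with hp | rfl
    · have : Fact p.Prime := ⟨hp⟩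
      have := ulift_ac.{u} (AlgebraicClosure (ZMod p))
      have h1 := h (ULift.{u} (AlgebraicClosure (ZMod p)))
      exact (has_iff_models (Or.inl hp) n μ m d _).1 h1
    · have := ulift_ac.{u} (AlgebraicClosure ℚ)
      have h1 := h (ULift.{u} (AlgebraicClosure ℚ))
      exact (has_iff_models (Or.inr rfl) n μ m d _).1 h1
  · intro h k _ _ _
    exact (has_iff_models hp n μ m d k).2 h

theorem good_zero_not (n m d p : ℕ) (hp : p.Prime) : ¬ Good.{u} n 0 m d p := by
  intro h
  have : Fact p.Prime := ⟨hp⟩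
  have := ulift_ac.{u} (AlgebraicClosure (ZMod p))
  exact not_has_zero _ n m d (h (ULift.{u} (AlgebraicClosure (ZMod p))))

theorem set1 (Q : ℕ → Prop) : {p : ℕ | p.Prime ∧ Q p} = (fun p : Nat.Primes => (p : ℕ)) ''
    {p : Nat.Primes | Q p} := by
  ext p
  constructor
  · rintro ⟨h1, h2⟩
    exact ⟨⟨p, h1⟩, h2, rfl⟩
  · rintro ⟨p, h, rfl⟩
    exact ⟨p.2, h⟩

theorem inj1 : Function.Injective fun p : Nat.Primes => (p : ℕ) := fun _ _ h =>
  Nat.Primes.coe_nat_injective h

theorem lef_fin (n ν m d : ℕ) (K : Type v) [Field K] [IsAlgClosed K] [CharZero K] :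
    Has K n ν m d ↔ {p : ℕ | p.Prime ∧ ¬ Good.{u} n ν m d p}.Finite := by
  rcases ν with _ | μ
  · refine iff_of_false (not_has_zero K n m d) fun h => ?_
    have : {p : ℕ | p.Prime ∧ ¬ Good.{u} n 0 m d p} = {p : ℕ | p.Prime} := by
      ext p
      exact ⟨fun h => h.1, fun h => ⟨h, good_zero_not n m d p h⟩⟩
    rw [this] at h
    exact Nat.infinite_setOfPred_prime h
  · rw [has_iff_models (p := 0) (Or.inr rfl), ACF_zero_realize_iff_finite_ACF_prime_not_realize,
      set1, Set.finite_image_iff inj1.injOn]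
    have : {p : Nat.Primes | Theory.ACF p ⊨ᵇ snt n μ m d}ᶜ =
        {p : Nat.Primes | ¬ Good.{u} n (μ + 1) m d p} := by
      ext p
      exact not_congr (good_iff (Or.inl p.2) n μ m d).symm
    rw [this]

theorem lef_inf (n ν m d : ℕ) (K : Type v) [Field K] [IsAlgClosed K] [CharZero K] :
    Has K n ν m d ↔ {p : ℕ | p.Prime ∧ Good.{u} n ν m d p}.Infinite := by
  rcases ν with _ | μ
  · refine iff_of_false (not_has_zero K n m d) fun h => ?_
    obtain ⟨p, hp, hg⟩ := h.nonempty
    exact good_zero_not n m d p hp hg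
  · rw [has_iff_models (p := 0) (Or.inr rfl), ACF_zero_realize_iff_infinite_ACF_prime_realize,
      set1, Set.infinite_image_iff inj1.injOn]
    have : {p : Nat.Primes | Theory.ACF p ⊨ᵇ snt n μ m d} =
        {p : Nat.Primes | Good.{u} n (μ + 1) m d p} := by
      ext p
      exact (good_iff (Or.inl p.2) n μ m d).symm
    rw [this]

/-- There is a `ν`-central polynomial for `M_n(K)`, in some number of variables. -/
def HasAny (K : Type*) [Field K] (n ν : ℕ) : Prop :=
  ∃ (m : ℕ) (f : FreeAlgebra K (Fin m)), IsNuCentral n ν f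

theorem deg_exists {K : Type*} [Field K] {m : ℕ} (f : FreeAlgebra K (Fin m)) : ∃ d,
    f ∈ Submodule.span K {w : FreeAlgebra K (Fin m) |
      ∃ l : List (Fin m), l.length ≤ d ∧ w = (l.map (FreeAlgebra.ι K)).prod} := by
  have mono : ∀ {a b : ℕ}, a ≤ b → Submodule.span K {w : FreeAlgebra K (Fin m) |
      ∃ l : List (Fin m), l.length ≤ a ∧ w = (l.map (FreeAlgebra.ι K)).prod} ≤
      Submodule.span K {w : FreeAlgebra K (Fin m) |
      ∃ l : List (Fin m), l.length ≤ b ∧ w = (l.map (FreeAlgebra.ι K)).prod} := fun h =>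
    Submodule.span_mono fun w ⟨l, hl, e⟩ => ⟨l, hl.trans h, e⟩
  induction f using FreeAlgebra.induction with
  | grade0 r =>
    refine ⟨0, ?_⟩
    rw [Algebra.algebraMap_eq_smul_one]
    exact Submodule.smul_mem _ _ (Submodule.subset_span ⟨[], le_rfl, rfl⟩)
  | grade1 x => exact ⟨1, Submodule.subset_span ⟨[x], le_rfl, by simp⟩⟩
  | mul a b ha hb =>
    obtain ⟨d1, h1⟩ := ha
    obtain ⟨d2, h2⟩ := hb
    refine ⟨d1 + d2, ?_⟩
    have h3 := Submodule.mul_mem_mul h1 h2
    rw [Submodule.span_mul_span] at h3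
    refine Submodule.span_mono ?_ h3
    rintro _ ⟨_, ⟨l1, hl1, rfl⟩, _, ⟨l2, hl2, rfl⟩, rfl⟩
    refine ⟨l1 ++ l2, by rw [List.length_append]; omega, ?_⟩
    simp
  | add a b ha hb =>
    obtain ⟨d1, h1⟩ := ha
    obtain ⟨d2, h2⟩ := hb
    exact ⟨max d1 d2, add_mem (mono (le_max_left _ _) h1) (mono (le_max_right _ _) h2)⟩

theorem hasAny_iff (K : Type*) [Field K] (n ν : ℕ) : HasAny K n ν ↔ ∃ m d, Has K n ν m d := by
  constructor
  · rintro ⟨m, f, hf⟩
    obtain ⟨d, hd⟩ := deg_exists f
    exact ⟨m, d, f, hd, hf⟩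
  · rintro ⟨m, d, f, -, hf⟩
    exact ⟨m, f, hf⟩

end Pool.Agent.N37.LF
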